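import Pool.Agent.Y346.PA.Stm
import Pool.Agent.W52.PQ.SV
import Pool.Agent.W11.PQ.CF
import Pool.Agent.W613.PQDp
import Pool.Agent.H951R4.OD.B6

set_option autoImplicit false

/-!
# Project PA, task H1b: `n² + n + 1` a prime times a fixed nonsquare
-/

namespace Pool.Agent.Y492.PA

open Finset Filter Topology
open Pool.Agent.H951R4.OD (ch PI Ex)
open Pool.Agent.W114.PQ (Dat Ax Pass datP S_SV)
open Pool.Agent.Y346.PA (datQ TT S_H1b)

/-- the quadratic test at an exact prime divisor `1 mod 4` -/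
theorem ch_s {n s q p : ℕ} (hP : Pass datQ n) (hT : TT q n) (hn : n ^ 2 + n + 1 = s * q)
    (hp4 : p % 4 = 1) (hE : Ex 6 n p) : ch (s : ℤ) p = 1 := by
  obtain ⟨hp, hp6, hpn, hpn2⟩ := hE
  obtain ⟨hq, hq3, hqd, hqd2⟩ := hT
  have hq2 : q ≠ 2 := by omega
  have hqodd : q % 2 = 1 := by
    rcases hq.eq_two_or_odd with h | h
    · exact absurd h hq2
    · exact h
  have hpodd : p % 2 = 1 := by omega
  have hpq : p ≠ q := by
    rintro rfl
    have h1 : p ∣ n ^ 2 + n := by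
      have : n ^ 2 + n = n * (n + 1) := by ring
      rw [this]
      exact dvd_mul_of_dvd_left hpn _
    have h2 : p ∣ 1 := (Nat.dvd_add_right h1).1 hqd
    exact hp.one_lt.ne' (Nat.dvd_one.1 h2)
  have hq6 : ¬ q ∣ 6 := by
    intro h
    have h1 := Nat.le_of_dvd (by norm_num) h
    have : q = 4 ∨ q = 5 ∨ q = 6 := by omega
    rcases this with rfl | rfl | rfl
    · revert hq; decide
    · revert h; decide
    · revert hq; decide
  have h1 := hP.1 p q ((q - 1) / 2) ⟨hp, hp6, hpn, hpn2⟩ hq hq6 ⟨hqd, hqd2⟩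
  have h2 : ch (p : ℤ) q ≠ -1 := fun h =>
    h1 ((Pool.Agent.H951R4.OD.ch_eq_neg_one_iff p q hq hq2).1 h)
  have h3 := Pool.Agent.H951R4.OD.ch_prime_ne_zero p q hp hq hq2 hpq
  have h4 : ch (p : ℤ) q = 1 := by
    rcases Pool.Agent.H951R4.OD.ch_val (p : ℤ) q with h | h | h
    · exact absurd h h3
    · exact h
    · exact absurd h h2
  have h5 : jacobiSym (p : ℤ) q = 1 := by
    unfold ch at h4
    rw [if_pos hqodd] at h4
    exact_mod_cast h4
  have h6 : jacobiSym (q : ℤ) p = 1 := by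
    rw [← jacobiSym.quadratic_reciprocity_one_mod_four hp4 (Nat.odd_iff.2 hqodd)]
    exact h5
  have h7 : jacobiSym ((s * q : ℕ) : ℤ) p = 1 := by
    rw [← hn]
    have h8 : ((n ^ 2 + n + 1 : ℕ) : ℤ) % p = 1 % p := by
      obtain ⟨k, rfl⟩ := hpn
      have : (((p * k) ^ 2 + p * k + 1 : ℕ) : ℤ) = 1 + p * (p * k ^ 2 + k) := by push_cast; ring
      rw [this, Int.add_mul_emod_self_left]
    rw [jacobiSym.mod_left' h8, jacobiSym.one_left]
  push_cast at h7
  rw [jacobiSym.mul_left, h6, mul_one] at h7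
  unfold ch
  rw [if_pos hpodd, h7]
  norm_num

/-- the conditions of the sieve -/
def Cd (s p n : ℕ) : Prop :=
  datP.T p n ∨ ((p % 4 = 1 ∧ ch (s : ℤ) p = -1) ∧ p ∣ n ∧ ¬ p ^ 2 ∣ n)

open scoped Classical in
/-- the sieve weights -/
noncomputable def hh (s p n : ℕ) : ℝ := if Cd s p n then 1 else 0

theorem hh01 (s p n : ℕ) : hh s p n = 0 ∨ hh s p n = 1 := by
  unfold hh
  split_ifs
  · exact Or.inr rfl
  · exact Or.inl rfl

open scoped Classical in
theorem hh_per {p : ℕ} (hp : p.Prime) (s n : ℕ) : hh s p (n + p ^ 2) = hh s p n := by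
  unfold hh
  have h1 : p ∣ n + p ^ 2 ↔ p ∣ n := by
    rw [Nat.dvd_add_left (dvd_pow_self p (by norm_num))]
  have h2 : p ^ 2 ∣ n + p ^ 2 ↔ p ^ 2 ∣ n := by
    rw [Nat.dvd_add_left dvd_rfl]
  have h3 := Pool.Agent.W613.PQDp.dp.per p n hp
  unfold Cd
  rw [h1, h2, h3]

theorem not_Cd {n s q p z : ℕ} (hP : Pass datQ n) (hT : TT q n)
    (hn : n ^ 2 + n + 1 = s * q) (hnz : s * z < n) (hp : p.Prime) (hpz : p ≤ z)
    (hps : ¬ p ∣ 6 * s) : ¬ Cd s p n := by
  have hzq : z < q := by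
    have h1 : s * z < s * q := by
      rw [← hn]
      nlinarith
    exact lt_of_mul_lt_mul_left h1 (Nat.zero_le _)
  rintro (h | ⟨⟨h1, h2⟩, h3, h4⟩)
  · have h5 : p ∣ s * q := by
      rw [← hn]
      exact h.1
    rcases (hp.dvd_mul).1 h5 with h6 | h6
    · exact hps (dvd_mul_of_dvd_right h6 6)
    · have := (Nat.prime_dvd_prime_iff_eq hp hT.1).1 h6
      omega
  · have h6 : ¬ p ∣ 6 := fun h => hps (dvd_mul_of_dvd_left h s)
    have := ch_s hP hT hn h1 ⟨hp, h6, h3, h4⟩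
    rw [this] at h2
    norm_num at h2

theorem card_exact (p : ℕ) (hp : 0 < p) :
    (((range (p ^ 2)).filter (fun n => p ∣ n ∧ ¬ p ^ 2 ∣ n)).card : ℝ) = p - 1 := by
  have : (range (p ^ 2)).filter (fun n => p ∣ n ∧ ¬ p ^ 2 ∣ n) =
      ((range p).erase 0).image (fun j => p * j) := by
    ext n
    simp only [mem_filter, mem_range, mem_image, mem_erase]
    constructor
    · rintro ⟨h1, ⟨c, rfl⟩, h2⟩
      refine ⟨c, ⟨?_, ?_⟩, rfl⟩
      · rintro rfl
        exact h2 (by simp)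
      · rw [sq] at h1
        exact lt_of_mul_lt_mul_left h1 (Nat.zero_le _)
    · rintro ⟨c, ⟨hc0, hc⟩, rfl⟩
      refine ⟨?_, dvd_mul_right _ _, ?_⟩
      · rw [sq]
        exact Nat.mul_lt_mul_of_pos_left hc hp
      · intro h
        rw [sq] at h
        have h1 := Nat.dvd_of_mul_dvd_mul_left hp h
        have h2 := Nat.le_of_dvd (Nat.pos_of_ne_zero hc0) h1
        omega
  rw [this, Finset.card_image_of_injective _ (fun a b hab => Nat.eq_of_mul_eq_mul_left hp hab),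
    card_erase_of_mem (mem_range.2 hp), card_range, Nat.cast_sub hp, Nat.cast_one]

/-- the expected lower bound of the mean -/
noncomputable def gl (s p : ℕ) : ℝ :=
  (1 + ch (-3) p) / p + (1 + ch (-1) p - ch s p - ch (-s) p) / (4 * p)

theorem ch_le (D : ℤ) (n : ℕ) : -1 ≤ ch D n ∧ ch D n ≤ 1 := by
  rcases Pool.Agent.H951R4.OD.ch_val D n with h | h | h <;> rw [h] <;> norm_num

theorem gl_le (s p : ℕ) (hp : 1 ≤ p) : gl s p ≤ 3 := by
  have h1 := ch_le (-3) p
  have h2 := ch_le (-1) p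
  have h3 := ch_le s p
  have h4 := ch_le (-s) p
  have hp0 : (1 : ℝ) ≤ p := by exact_mod_cast hp
  have e1 : (1 + ch (-3) p) / (p : ℝ) ≤ 2 := by
    rw [div_le_iff₀ (by linarith)]
    linarith [h1.2]
  have e2 : (1 + ch (-1) p - ch s p - ch (-s) p) / (4 * (p : ℝ)) ≤ 1 := by
    rw [div_le_iff₀ (by linarith)]
    linarith [h2.2, h3.1, h4.1]
  unfold gl
  linarith

open scoped Classical in
theorem mean_bounds {s p : ℕ} (hp : p.Prime) (hps : ¬ p ∣ 6 * s) :
    (∑ n ∈ range (p ^ 2), hh s p n) / (p : ℝ) ^ 2 ≤ 5 / p ∧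
    gl s p - 3 / (p : ℝ) ^ 2 ≤ (∑ n ∈ range (p ^ 2), hh s p n) / (p : ℝ) ^ 2 := by
  have hp6 : ¬ p ∣ 6 := fun h => hps (dvd_mul_of_dvd_left h s)
  have hps' : ¬ p ∣ s := fun h => hps (dvd_mul_of_dvd_right h 6)
  have hp2 : p ≠ 2 := by rintro rfl; exact hp6 (by norm_num)
  have hodd : p % 2 = 1 := by
    rcases hp.eq_two_or_odd with h | h
    · exact absurd h hp2
    · exact h
  have hp0 : (0 : ℝ) < p := by exact_mod_cast hp.pos
  have hp1 : (1 : ℝ) ≤ p := by exact_mod_cast hp.one_le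
  have hcnt := Pool.Agent.W613.PQDp.dp.cnt p hp hp6
  have hρ : datP.ρ p = 1 + ch (-3) p := rfl
  have hκ : datP.κ = 2 := rfl
  rw [hρ, hκ] at hcnt
  obtain ⟨T, hT⟩ : ∃ T : ℝ, T = (((range (p ^ 2)).filter (fun n => datP.T p n)).card : ℝ) := ⟨_, rfl⟩
  rw [← hT] at hcnt
  obtain ⟨c1, c2⟩ := abs_le.1 hcnt
  obtain ⟨I, hI⟩ : ∃ I : ℝ, I = if (p % 4 = 1 ∧ ch (s : ℤ) p = -1) then 1 else 0 := ⟨_, rfl⟩
  have hsum : ∑ n ∈ range (p ^ 2), hh s p n = T + I * (p - 1) := by
    have e1 : ∀ n ∈ range (p ^ 2), hh s p n = (if datP.T p n then (1 : ℝ) else 0) +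
        I * (if (p ∣ n ∧ ¬ p ^ 2 ∣ n) then (1 : ℝ) else 0) := by
      intro n _
      unfold hh Cd
      rw [hI]
      by_cases a1 : datP.T p n
      · have a2 : ¬ p ∣ n := by
          intro h
          have h1 : p ∣ n ^ 2 + n := by
            have : n ^ 2 + n = n * (n + 1) := by ring
            rw [this]
            exact dvd_mul_of_dvd_left h _
          have h2 : p ∣ 1 := (Nat.dvd_add_right h1).1 a1.1
          exact hp.one_lt.ne' (Nat.dvd_one.1 h2)
        simp [a1, a2]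
      · by_cases a2 : (p % 4 = 1 ∧ ch (s : ℤ) p = -1)
        · simp [a1, a2]
        · simp [a1, a2]
    rw [Finset.sum_congr rfl e1, Finset.sum_add_distrib, ← Finset.mul_sum, ← Finset.sum_filter,
      ← Finset.sum_filter, Finset.sum_const, Finset.sum_const, nsmul_eq_mul, nsmul_eq_mul,
      mul_one, mul_one, card_exact p hp.pos, hT]
  -- the indicator in terms of characters
  have hI2 : I = (1 + ch (-1) p - ch s p - ch (-s) p) / 4 := by
    have e1 : ch (-(s : ℤ)) p = ch (-1) p * ch s p := by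
      rw [← Pool.Agent.H951R4.OD.ch_mul_left]
      congr 1
      ring
    rw [e1]
    have e2 : ch (-1) p = if p % 4 = 1 then 1 else -1 := by
      unfold ch
      rw [if_pos hodd, jacobiSym.at_neg_one (Nat.odd_iff.2 hodd)]
      rcases (by omega : p % 4 = 1 ∨ p % 4 = 3) with h | h
      · rw [if_pos h, ZMod.χ₄_nat_one_mod_four h]
        norm_num
      · rw [if_neg (by omega), ZMod.χ₄_nat_three_mod_four h]
        norm_num
    have e3 : ch (s : ℤ) p ≠ 0 := by
      unfold ch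
      rw [if_pos hodd]
      have hg : (s : ℤ).gcd p = 1 := by
        rw [Int.gcd_natCast_natCast, Nat.gcd_comm]
        exact (Nat.Prime.coprime_iff_not_dvd hp).2 hps'
      exact_mod_cast jacobiSym.ne_zero hg
    rw [e2, hI]
    rcases Pool.Agent.H951R4.OD.ch_val (s : ℤ) p with h | h | h
    · exact absurd h e3
    · rw [h]
      by_cases a : p % 4 = 1 <;> simp [a] <;> norm_num
    · rw [h]
      by_cases a : p % 4 = 1 <;> simp [a] <;> norm_num
  have hI01 : 0 ≤ I ∧ I ≤ 1 := by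
    rw [hI]
    split_ifs <;> norm_num
  have hch3 := ch_le (-3) p
  rw [hsum]
  have hp2pos : (0 : ℝ) < (p : ℝ) ^ 2 := by positivity
  constructor
  · rw [div_le_div_iff₀ hp2pos hp0]
    have h1 : T ≤ p * 2 + 2 := by
      have : (p : ℝ) * (1 + ch (-3) p) ≤ p * 2 := mul_le_mul_of_nonneg_left (by linarith) hp0.le
      linarith
    have h2 : I * (p - 1) ≤ 1 * p := mul_le_mul hI01.2 (by linarith) (by linarith) (by norm_num)
    have h3 : T + I * (p - 1) ≤ 5 * p := by linarith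
    calc (T + I * (p - 1)) * p ≤ (5 * p) * p := mul_le_mul_of_nonneg_right h3 hp0.le
      _ = 5 * (p : ℝ) ^ 2 := by ring
  · have e4 : gl s p - 3 / (p : ℝ) ^ 2 = (p * (1 + ch (-3) p) + I * p - 3) / (p : ℝ) ^ 2 := by
      rw [hI2]
      unfold gl
      field_simp
    rw [e4]
    apply div_le_div_of_nonneg_right _ hp2pos.le
    nlinarith [hI01.1, hI01.2]

theorem not_sq_neg_one : ¬ IsSquare (-1 : ℤ) := by
  rintro ⟨r, hr⟩
  nlinarith [mul_self_nonneg r]

/-- the sum of the means -/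
theorem means_lower {s : ℕ} (hs : ¬ IsSquare s) : ∃ C : ℝ, 0 ≤ C ∧ ∀ z : ℕ, 3 ≤ z →
    5 / 4 * Real.log (Real.log z) - C ≤
      ∑ p ∈ (PI 2 z).filter (fun p => ¬ p ∣ 6 * s),
        (∑ n ∈ range (p ^ 2), hh s p n) / (p : ℝ) ^ 2 := by
  have hs0 : 0 < s := by
    rcases Nat.eq_zero_or_pos s with h | h
    · exact absurd (by rw [h]; exact ⟨0, rfl⟩) hs
    · exact h
  have hsZ : ¬ IsSquare (s : ℤ) := by
    rintro ⟨r, hr⟩
    apply hs
    refine ⟨r.natAbs, ?_⟩
    have : ((r.natAbs * r.natAbs : ℕ) : ℤ) = s := by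
      rw [Nat.cast_mul, Int.natCast_natAbs, abs_mul_abs_self, hr]
    exact_mod_cast this.symm
  have hsN : ¬ IsSquare (-(s : ℤ)) := by
    rintro ⟨r, hr⟩
    have h1 : (0 : ℤ) < s := by exact_mod_cast hs0
    nlinarith [mul_self_nonneg r]
  obtain ⟨C1, hC1, h1⟩ := Pool.Agent.H951R4.OD.mert_int
  obtain ⟨C2, hC2, h2⟩ := Pool.Agent.H951R4.OD.char_sum_fixed (-3) (by
      rintro ⟨r, hr⟩
      nlinarith [mul_self_nonneg r])
  obtain ⟨C3, hC3, h3⟩ := Pool.Agent.H951R4.OD.char_sum_fixed (-1) not_sq_neg_one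
  obtain ⟨C4, hC4, h4⟩ := Pool.Agent.H951R4.OD.char_sum_fixed (s : ℤ) hsZ
  obtain ⟨C5, hC5, h5⟩ := Pool.Agent.H951R4.OD.char_sum_fixed (-(s : ℤ)) hsN
  obtain ⟨C6, hC6, h6⟩ := Pool.Agent.H951R4.OD.sum_sq_inv
  refine ⟨5 / 4 * C1 + C2 + C3 / 4 + C4 / 4 + C5 / 4 + 3 * C6 + 3 * (6 * s), by positivity, ?_⟩
  intro z hz
  have hz2 : 2 ≤ z := by omega
  have hllz : Real.log (Real.log z) ≤ Real.log (Real.log z / Real.log 2) := by
    have hz3 : (3 : ℝ) ≤ z := by exact_mod_cast hz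
    have hlz : 0 < Real.log z := Real.log_pos (by linarith)
    have hl2 : 0 < Real.log 2 := Real.log_pos (by norm_num)
    apply Real.log_le_log hlz
    rw [le_div_iff₀ hl2]
    have := Real.log_two_lt_d9
    nlinarith
  -- the full sum of `gl`
  have hfull : 5 / 4 * Real.log (Real.log z) - (5 / 4 * C1 + C2 + C3 / 4 + C4 / 4 + C5 / 4) ≤
      ∑ p ∈ PI 2 z, gl s p := by
    have e : ∑ p ∈ PI 2 z, gl s p = 5 / 4 * ∑ p ∈ PI 2 z, (1 : ℝ) / p + ∑ p ∈ PI 2 z, ch (-3) p / p +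
        (∑ p ∈ PI 2 z, ch (-1) p / p) / 4 - (∑ p ∈ PI 2 z, ch s p / p) / 4 -
        (∑ p ∈ PI 2 z, ch (-s) p / p) / 4 := by
      rw [Finset.mul_sum, Finset.sum_div, Finset.sum_div, Finset.sum_div,
        ← Finset.sum_add_distrib, ← Finset.sum_add_distrib, ← Finset.sum_sub_distrib,
        ← Finset.sum_sub_distrib]
      refine Finset.sum_congr rfl fun p hp => ?_
      have hp0 : (p : ℝ) ≠ 0 := by
        have : p.Prime := (mem_filter.1 hp).2
        exact_mod_cast this.ne_zero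
      unfold gl
      field_simp
      ring
    rw [e]
    have a1 := (abs_le.1 (h1 2 z le_rfl hz2)).1
    have a2 := (abs_le.1 (h2 2 z)).1
    have a3 := (abs_le.1 (h3 2 z)).1
    have a4 := (abs_le.1 (h4 2 z)).2
    have a5 := (abs_le.1 (h5 2 z)).2
    push_cast at a1
    linarith
  -- the excluded primes
  have hsplit : ∑ p ∈ PI 2 z, gl s p = ∑ p ∈ (PI 2 z).filter (fun p => ¬ p ∣ 6 * s), gl s p +
      ∑ p ∈ (PI 2 z).filter (fun p => ¬ ¬ p ∣ 6 * s), gl s p :=
    (Finset.sum_filter_add_sum_filter_not _ _ _).symm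
  have hexc : ∑ p ∈ (PI 2 z).filter (fun p => ¬ ¬ p ∣ 6 * s), gl s p ≤ 3 * (6 * s) := by
    have b1 : ∑ p ∈ (PI 2 z).filter (fun p => ¬ ¬ p ∣ 6 * s), gl s p ≤
        ∑ _p ∈ (PI 2 z).filter (fun p => ¬ ¬ p ∣ 6 * s), (3 : ℝ) := by
      refine Finset.sum_le_sum fun p hp => ?_
      have hp1 := (mem_filter.1 (mem_filter.1 hp).1).2
      exact gl_le s p hp1.one_le
    refine b1.trans ?_
    rw [Finset.sum_const, nsmul_eq_mul, mul_comm]
    refine mul_le_mul_of_nonneg_left ?_ (by norm_num)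
    have b2 : (PI 2 z).filter (fun p => ¬ ¬ p ∣ 6 * s) ⊆ Ioc 0 (6 * s) := by
      intro p hp
      rw [mem_filter, not_not] at hp
      rw [mem_Ioc]
      exact ⟨((mem_filter.1 hp.1).2).pos, Nat.le_of_dvd (by omega) hp.2⟩
    have b3 := Finset.card_le_card b2
    rw [Nat.card_Ioc] at b3
    have b4 : ((PI 2 z).filter (fun p => ¬ ¬ p ∣ 6 * s)).card ≤ 6 * s := by omega
    exact_mod_cast b4
  have hmain : ∑ p ∈ (PI 2 z).filter (fun p => ¬ p ∣ 6 * s), (gl s p - 3 / (p : ℝ) ^ 2) ≤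
      ∑ p ∈ (PI 2 z).filter (fun p => ¬ p ∣ 6 * s),
        (∑ n ∈ range (p ^ 2), hh s p n) / (p : ℝ) ^ 2 := by
    refine Finset.sum_le_sum fun p hp => ?_
    rw [mem_filter] at hp
    exact (mean_bounds (mem_filter.1 hp.1).2 hp.2).2
  rw [Finset.sum_sub_distrib] at hmain
  have hsq : ∑ p ∈ (PI 2 z).filter (fun p => ¬ p ∣ 6 * s), 3 / (p : ℝ) ^ 2 ≤ 3 * C6 := by
    have := h6 ((PI 2 z).filter (fun p => ¬ p ∣ 6 * s))
    calc ∑ p ∈ (PI 2 z).filter (fun p => ¬ p ∣ 6 * s), 3 / (p : ℝ) ^ 2 =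
        3 * ∑ p ∈ (PI 2 z).filter (fun p => ¬ p ∣ 6 * s), 1 / (p : ℝ) ^ 2 := by
          rw [Finset.mul_sum]
          exact Finset.sum_congr rfl fun q _ => by ring
      _ ≤ _ := mul_le_mul_of_nonneg_left this (by norm_num)
  linarith

/-- the set -/
def AA (s N : ℕ) : Set ℕ := {n : ℕ | 1 ≤ n ∧ n ≤ N ∧
  Pass datQ n ∧ (n % 4 = 0 ∨ n % 4 = 3) ∧ ∃ q : ℕ, TT q n ∧ n ^ 2 + n + 1 = s * q}

open scoped Classical in
/-- the count -/
theorem count (sv : S_SV) {s : ℕ} (hs : ¬ IsSquare s) :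
    ∃ C : ℝ, 1 ≤ C ∧ ∀ z N : ℕ, 3 ≤ z →
      C * Real.log z * (1 + Real.log (Real.log z)) ≤ Real.log N →
      ((AA s N).ncard : ℝ) ≤ s * z + C * N * (Real.log z) ^ (-(1 + 1 / 4) : ℝ) := by
  have hs0 : 0 < s := by
    rcases Nat.eq_zero_or_pos s with h | h
    · exact absurd (by rw [h]; exact ⟨0, rfl⟩) hs
    · exact h
  obtain ⟨C1, hC1, hsv⟩ := sv 5 (by norm_num)
  obtain ⟨C2, hC2, hm⟩ := means_lower hs
  have hE : 1 ≤ Real.exp C2 := Real.one_le_exp hC2
  refine ⟨C1 * Real.exp C2, by nlinarith, ?_⟩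
  intro z N hz hN
  have hz3 : (3 : ℝ) ≤ z := by exact_mod_cast hz
  have hlz : 1 ≤ Real.log z := by
    rw [Real.le_log_iff_exp_le (by linarith)]
    have := Real.exp_one_lt_d9
    linarith
  have hllz : 0 ≤ Real.log (Real.log z) := Real.log_nonneg hlz
  set M : ℕ := s * z with hM
  set F : Finset ℕ := (Icc 1 N).filter (fun m => M < m ∧ m ∈ AA s N) with hF
  have hsub : AA s N ⊆ ((Ioc 0 M ∪ F : Finset ℕ) : Set ℕ) := by
    intro p hp
    rw [mem_coe, mem_union, hF, mem_filter, mem_Icc, mem_Ioc]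
    have h1 := hp.1
    have h2 := hp.2.1
    by_cases h : p ≤ M
    · left; exact ⟨by omega, h⟩
    · right; exact ⟨⟨h1, h2⟩, by omega, hp⟩
  have hcard : ((AA s N).ncard : ℝ) ≤ M + F.card := by
    have h1 := Set.ncard_le_ncard hsub (Finset.finite_toSet _)
    rw [Set.ncard_coe_finset] at h1
    have h2 := h1.trans (Finset.card_union_le _ _)
    rw [Nat.card_Ioc] at h2
    have h3 : (AA s N).ncard ≤ M + F.card := by omega
    exact_mod_cast h3
  set SS : Finset ℕ := (PI 2 z).filter (fun p => ¬ p ∣ 6 * s) with hSS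
  have hmem : ∀ p ∈ SS, (p.Prime ∧ p ≤ z) ∧ ¬ p ∣ 6 * s := by
    intro p hp
    rw [hSS, mem_filter] at hp
    have h1 := hp.1
    unfold PI at h1
    rw [mem_filter, mem_Ioc] at h1
    exact ⟨⟨h1.2, h1.1.2⟩, hp.2⟩
  have hFle : (F.card : ℝ) ≤ ∑ m ∈ Icc 1 N, ∏ p ∈ SS, (1 - hh s p m) := by
    rw [hF, Finset.card_filter]
    push_cast
    refine Finset.sum_le_sum fun m _ => ?_
    by_cases hmm : M < m ∧ m ∈ AA s N
    · rw [if_pos hmm]
      apply le_of_eq
      symm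
      apply Finset.prod_eq_one
      intro p hp
      obtain ⟨⟨hp1, hp2⟩, hp3⟩ := hmem p hp
      obtain ⟨-, -, hPass, -, q, hT, hq⟩ := hmm.2
      have hzero : hh s p m = 0 := by
        unfold hh
        rw [if_neg (not_Cd hPass hT hq hmm.1 hp1 hp2 hp3)]
      rw [hzero, sub_zero]
    · rw [if_neg hmm]
      apply Finset.prod_nonneg
      intro p _
      rcases hh01 s p m with h | h <;> rw [h] <;> norm_num
  have hN' : C1 * Real.log z * (1 + Real.log (Real.log z)) ≤ Real.log N := by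
    refine le_trans ?_ hN
    have h1 : C1 ≤ C1 * Real.exp C2 := by nlinarith
    have h2 : 0 ≤ Real.log z * (1 + Real.log (Real.log z)) := by positivity
    nlinarith
  have hsv' := hsv z N hz hN' SS (hh s) (fun p hp => (hmem p hp).1) (fun p _ n => hh01 s p n)
    (fun p hp n => hh_per (hmem p hp).1.1 s n)
    (fun p hp => (mean_bounds (hmem p hp).1.1 (hmem p hp).2).1)
  have hlow := hm z hz
  have hexpo : Real.exp (-∑ p ∈ SS, (∑ n ∈ range (p ^ 2), hh s p n) / (p : ℝ) ^ 2) ≤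
      Real.exp C2 * (Real.log z) ^ (-(1 + 1 / 4) : ℝ) := by
    rw [Real.rpow_def_of_pos (by linarith), ← Real.exp_add]
    apply Real.exp_le_exp.2
    nlinarith
  have h5 : (F.card : ℝ) ≤ C1 * N * (Real.exp C2 * (Real.log z) ^ (-(1 + 1 / 4) : ℝ)) := by
    refine hFle.trans (hsv'.trans ?_)
    exact mul_le_mul_of_nonneg_left hexpo (by positivity)
  have h6 : (M : ℝ) = s * z := by rw [hM]; push_cast; ring
  rw [h6] at hcard
  calc ((AA s N).ncard : ℝ) ≤ s * z + F.card := hcard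
    _ ≤ s * z + C1 * N * (Real.exp C2 * (Real.log z) ^ (-(1 + 1 / 4) : ℝ)) := by linarith
    _ = _ := by ring

open Pool.Agent.W11.PQ (growth) in
/-- the choice of the sifting level -/
theorem finish (A : ℕ → Set ℕ) (K C δ : ℝ) (hδ : 0 < δ) (hC : 1 ≤ C) (hK : 0 ≤ K)
    (hcount : ∀ z N : ℕ, 3 ≤ z → C * Real.log z * (1 + Real.log (Real.log z)) ≤ Real.log N →
      ((A N).ncard : ℝ) ≤ K * z + C * N * (Real.log z) ^ (-(1 + δ))) : Pool.Agent.Y346.PA.Small A := by
  set θ : ℝ := (1 + δ / 2) / (1 + δ) with hθ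
  have hθ0 : 0 < θ := by positivity
  have hθ1 : θ < 1 := by rw [hθ, div_lt_one (by linarith)]; linarith
  have hθδ : θ * (1 + δ) = 1 + δ / 2 := by rw [hθ]; field_simp
  have hlog : Tendsto (fun X : ℕ => Real.log (X : ℝ)) atTop atTop :=
    Real.tendsto_log_atTop.comp tendsto_natCast_atTop_atTop
  have E1 := hlog.eventually (growth C 0 θ hθ1)
  have E2 := hlog.eventually (growth 2 0 θ hθ1)
  have E3 := hlog.eventually ((tendsto_rpow_atTop hθ0).eventually_ge_atTop 2)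
  have E4 := hlog.eventually (eventually_ge_atTop (3 : ℝ))
  have E5 : ∀ᶠ X : ℕ in atTop, 1 ≤ X := eventually_ge_atTop _
  have lim : Tendsto (fun X : ℕ => K * (8 / Real.log (X : ℝ)) +
      C * 2 ^ (1 + δ) * (Real.log (X : ℝ)) ^ (-(δ / 2))) atTop (𝓝 0) := by
    have l1 : Tendsto (fun X : ℕ => 8 / Real.log (X : ℝ)) atTop (𝓝 0) :=
      tendsto_const_nhds.div_atTop hlog
    have l2 : Tendsto (fun X : ℕ => (Real.log (X : ℝ)) ^ (-(δ / 2))) atTop (𝓝 0) :=
      (tendsto_rpow_neg_atTop (by linarith : 0 < δ / 2)).comp hlog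
    have := (l1.const_mul K).add (l2.const_mul (C * 2 ^ (1 + δ)))
    simpa using this
  unfold Pool.Agent.Y346.PA.Small
  refine squeeze_zero' ?_ ?_ lim
  · filter_upwards [E4] with X h4
    positivity
  filter_upwards [E1, E2, E3, E4, E5] with X h1 h2 h3 h4 h5
  set L : ℝ := Real.log (X : ℝ) with hL
  have hX0 : (0 : ℝ) < X := by
    have : 0 < X := by omega
    exact_mod_cast this
  have hXL : (X : ℝ) = Real.exp L := (Real.exp_log hX0).symm
  set u : ℝ := L ^ θ with hu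
  set z : ℕ := ⌊Real.exp u⌋₊ with hz
  have hlogL : 1 ≤ Real.log L := by
    rw [Real.le_log_iff_exp_le (by linarith)]
    have := Real.exp_one_lt_d9
    linarith
  have hexpu : 1 + u + u ^ 2 / 2 ≤ Real.exp u := Real.quadratic_le_exp_of_nonneg (by linarith)
  have hexp4 : (4 : ℝ) ≤ Real.exp u := by nlinarith
  have hz1 : (z : ℝ) ≤ Real.exp u := Nat.floor_le (by positivity)
  have hz2 : Real.exp u < z + 1 := Nat.lt_floor_add_one _
  have hz3 : 3 ≤ z := by
    have : (3 : ℝ) < z + 1 := by linarith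
    have : 3 < z + 1 := by exact_mod_cast this
    omega
  have hz3' : (3 : ℝ) ≤ z := by exact_mod_cast hz3
  have hlz1 : Real.log z ≤ u := by
    have := Real.log_le_log (by linarith) hz1
    rwa [Real.log_exp] at this
  have hlz2 : u / 2 ≤ Real.log z := by
    have h6 : Real.exp u / 2 ≤ z := by linarith
    have h7 := Real.log_le_log (by positivity) h6
    rw [Real.log_div (by positivity) (by norm_num), Real.log_exp] at h7
    have := Real.log_two_lt_d9
    linarith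
  have hlz : 1 ≤ Real.log z := by linarith
  have hllz : Real.log (Real.log z) ≤ Real.log L := by
    apply Real.log_le_log (by linarith)
    refine hlz1.trans ?_
    rw [hu]
    calc L ^ θ ≤ L ^ (1 : ℝ) := Real.rpow_le_rpow_of_exponent_le (by linarith) hθ1.le
      _ = L := Real.rpow_one L
  have hlogN : C * Real.log z * (1 + Real.log (Real.log z)) ≤ Real.log (X : ℝ) := by
    have h7 : C * Real.log z * (1 + Real.log (Real.log z)) ≤ C * u * (1 + Real.log L) := by
      apply mul_le_mul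
      · exact mul_le_mul_of_nonneg_left hlz1 (by linarith)
      · linarith
      · have := Real.log_nonneg hlz
        linarith
      · positivity
    rw [← hL]
    linarith
  have hc := hcount z X hz3 hlogN
  have hLX : L / X ≤ 8 / L := by
    rw [div_le_div_iff₀ hX0 (by linarith), hXL]
    have := Real.quadratic_le_exp_of_nonneg (by linarith : 0 ≤ L)
    nlinarith
  have hzLX : z * (L / X) ≤ 8 / L := by
    have h6 : u ≤ L / 2 := by nlinarith
    have h7 : (z : ℝ) ≤ Real.exp (L / 2) := hz1.trans (Real.exp_le_exp.2 h6)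
    have h8 : Real.exp L = Real.exp (L / 2) * Real.exp (L / 2) := by rw [← Real.exp_add]; ring_nf
    have h9 := Real.quadratic_le_exp_of_nonneg (by linarith : 0 ≤ L / 2)
    calc z * (L / X) ≤ Real.exp (L / 2) * (L / X) := mul_le_mul_of_nonneg_right h7 (by positivity)
      _ = L / Real.exp (L / 2) := by
        rw [hXL, h8]
        field_simp
      _ ≤ 8 / L := by
        rw [div_le_div_iff₀ (by positivity) (by linarith)]
        nlinarith
  have hpow : (Real.log z) ^ (-(1 + δ)) * L ≤ 2 ^ (1 + δ) * L ^ (-(δ / 2)) := by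
    have h6 : (Real.log z) ^ (-(1 + δ)) ≤ (u / 2) ^ (-(1 + δ)) :=
      Real.rpow_le_rpow_of_nonpos (by linarith) hlz2 (by linarith)
    have h7 : (u / 2) ^ (-(1 + δ)) = 2 ^ (1 + δ) * L ^ (-(1 + δ / 2)) := by
      rw [Real.div_rpow (by linarith) (by norm_num), Real.rpow_neg (by norm_num : (0 : ℝ) ≤ 2),
        div_inv_eq_mul, hu, ← Real.rpow_mul (by linarith)]
      rw [show θ * -(1 + δ) = -(1 + δ / 2) by rw [← hθδ]; ring]
      ring
    have h8 : L ^ (-(1 + δ / 2)) * L = L ^ (-(δ / 2)) := by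
      conv_lhs => rw [← Real.rpow_one L]
      rw [← Real.rpow_mul (by linarith), ← Real.rpow_add (by linarith)]
      congr 1
      ring
    calc (Real.log z) ^ (-(1 + δ)) * L ≤ (2 ^ (1 + δ) * L ^ (-(1 + δ / 2))) * L := by
          rw [← h7]; exact mul_le_mul_of_nonneg_right h6 (by linarith)
      _ = _ := by rw [mul_assoc, h8]
  have hlp : 0 ≤ (Real.log z) ^ (-(1 + δ)) := Real.rpow_nonneg (by linarith) _
  calc ((A X).ncard : ℝ) * L / X
      ≤ (K * z + C * X * (Real.log z) ^ (-(1 + δ))) * L / X := by gcongr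
    _ = K * (z * (L / X)) + C * ((Real.log z) ^ (-(1 + δ)) * L) := by
        field_simp
    _ ≤ K * (8 / L) + C * (2 ^ (1 + δ) * L ^ (-(δ / 2))) := by gcongr
    _ = K * (8 / L) + C * 2 ^ (1 + δ) * L ^ (-(δ / 2)) := by ring

/-- (H1b) -/
theorem h1b : S_H1b := by
  intro s hs
  obtain ⟨C, hC, hcount⟩ := count Pool.Agent.W52.PQ.sv hs
  exact finish (AA s) s C (1 / 4) (by norm_num) hC (Nat.cast_nonneg s) hcount

end Pool.Agent.Y492.PA
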